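import Pool.Agent.Helper40.LS.Basic

/-! Project LS, module Q11: local sparsity. -/

set_option autoImplicit false
open Classical Filter Topology

namespace Pool.Agent.Helper40.LS

theorem h9_sum_pow {n : ℕ} (q : ℝ) :
    ∑ X : Finset (Fin n), q ^ X.card = (1 + q) ^ n := by
  have h := Finset.prod_add (fun _ : Fin n => q) (fun _ => (1 : ℝ)) Finset.univ
  simp only [Finset.prod_const, Finset.card_univ, Fintype.card_fin, one_pow, mul_one,
    Finset.powerset_univ] at h
  rw [← h, add_comm]

/-- the sum over all pairs of sets, not both empty -/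
theorem h9_sum_pairs {n : ℕ} {q : ℝ} (hq : 0 ≤ q) (hq1 : 2 * n * q ≤ 1) :
    ∑ e ∈ (Finset.univ : Finset (Finset (Fin n) × Finset (Fin n))).filter
      (fun e => 0 < e.1.card + e.2.card), q ^ (e.1.card + e.2.card) ≤ 4 * n * q := by
  have h1 : ∑ e : Finset (Fin n) × Finset (Fin n), q ^ (e.1.card + e.2.card)
      = (1 + q) ^ (2 * n) := by
    rw [Fintype.sum_prod_type]
    have : ∀ X : Finset (Fin n), ∑ Z : Finset (Fin n), q ^ (X.card + Z.card) =
        q ^ X.card * (1 + q) ^ n := by
      intro X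
      rw [← h9_sum_pow q, Finset.mul_sum]
      exact Finset.sum_congr rfl fun Z _ => pow_add _ _ _
    rw [Finset.sum_congr rfl fun X _ => this X, ← Finset.sum_mul, h9_sum_pow, two_mul, pow_add]
  have h2 := Finset.sum_filter_add_sum_filter_not
    (Finset.univ : Finset (Finset (Fin n) × Finset (Fin n)))
    (fun e => 0 < e.1.card + e.2.card) (fun e => q ^ (e.1.card + e.2.card))
  have h3 : (1 : ℝ) ≤ ∑ e ∈ (Finset.univ : Finset (Finset (Fin n) × Finset (Fin n))).filter
      (fun e => ¬ 0 < e.1.card + e.2.card), q ^ (e.1.card + e.2.card) := by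
    have : ((∅, ∅) : Finset (Fin n) × Finset (Fin n)) ∈
      (Finset.univ : Finset (Finset (Fin n) × Finset (Fin n))).filter
        (fun e => ¬ 0 < e.1.card + e.2.card) := by simp
    refine le_trans ?_ (Finset.single_le_sum (fun e _ => pow_nonneg hq _) this)
    simp
  have h4 : (1 + q) ^ (2 * n) ≤ Real.exp (2 * n * q) := by
    have := Real.add_one_le_exp q
    calc (1 + q) ^ (2 * n) ≤ (Real.exp q) ^ (2 * n) :=
          pow_le_pow_left₀ (by linarith) (by linarith) _
      _ = Real.exp (2 * n * q) := by rw [← Real.exp_nat_mul]; push_cast; ring_nf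
  have h5 : Real.exp (2 * n * q) ≤ 1 + 2 * (2 * n * q) := by
    have h6 : 0 ≤ 2 * n * q := by positivity
    have := Real.abs_exp_sub_one_le (x := 2 * n * q) (by rw [abs_of_nonneg h6]; exact hq1)
    rw [abs_of_nonneg h6] at this
    have := (abs_le.1 this).2
    linarith
  linarith

/-- LS-Q11: local sparsity -/
theorem pr_small (κ v : ℝ) (hκ : 0 < κ) (hv : 0 < v) : ∃ d : ℝ, 0 < d ∧ ∀ᶠ n : ℕ in atTop,
    ∀ p : ℝ, 0 ≤ p → p ≤ 1 → p ≤ v * Real.log n / n →
      Ex p (fun G : Gr n => ind (¬ SmallG G κ d (Real.log n))) ≤ (n : ℝ) ^ (-(2 : ℝ)) := by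
  refine ⟨4 * κ / v * Real.exp (-(10 / κ + 1)), by positivity, ?_⟩
  set d : ℝ := 4 * κ / v * Real.exp (-(10 / κ + 1)) with hd
  have hd0 : 0 < d := by positivity
  have hdv : d * v = 4 * κ * Real.exp (-(10 / κ + 1)) := by rw [hd]; field_simp
  filter_upwards [eventually_ge_atTop 4] with n hn p h0 h1 hp
  have hn4 : (4 : ℝ) ≤ n := by exact_mod_cast hn
  have hn0 : (0 : ℝ) < n := by linarith
  set L : ℝ := Real.log n with hL
  have hL0 : 0 < L := Real.log_pos (by linarith)
  set q : ℝ := Real.exp (-(10 * L)) with hq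
  have hq0 : 0 ≤ q := (Real.exp_pos _).le
  have hqn : q = 1 / (n : ℝ) ^ 10 := by
    rw [hq, Real.exp_neg, hL, mul_comm, Real.exp_mul, Real.exp_log hn0, one_div]
    norm_cast
  -- the probability for one pair
  have key : ∀ e : Finset (Fin n) × Finset (Fin n), 0 < e.1.card + e.2.card →
      (e.1.card + e.2.card : ℝ) ≤ d * n →
      Ex p (fun G : Gr n => ind (κ * L * (e.1.card + e.2.card) <
        ((G ∩ box e.1 e.2).card : ℝ))) ≤ q ^ (e.1.card + e.2.card) := by
    rintro ⟨X, Z⟩ hj hjd
    simp only at hj hjd ⊢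
    set j : ℝ := (X.card : ℝ) + Z.card with hjdef
    have hj1 : 1 ≤ j := by rw [hjdef]; exact_mod_cast hj
    have hbox : ((box X Z).card : ℝ) ≤ j ^ 2 / 4 := by
      rw [box, Finset.card_product]
      push_cast
      nlinarith [sq_nonneg ((X.card : ℝ) - Z.card)]
    have hv0 : 0 < v * L * j ^ 2 / (4 * n) := by positivity
    have h2 : p * (box X Z).card ≤ v * L * j ^ 2 / (4 * n) := by
      calc p * (box X Z).card ≤ v * L / n * (j ^ 2 / 4) :=
            mul_le_mul hp hbox (Nat.cast_nonneg _) (by positivity)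
        _ = v * L * j ^ 2 / (4 * n) := by field_simp
    have hvj : v * j ≤ 4 * κ * Real.exp (-(10 / κ + 1)) * n := by
      calc v * j ≤ v * (d * n) := mul_le_mul_of_nonneg_left hjd hv.le
        _ = 4 * κ * Real.exp (-(10 / κ + 1)) * n := by rw [← hdv]; ring
    have hexp1 : Real.exp (-(10 / κ + 1)) ≤ 1 := by
      rw [Real.exp_le_one_iff]
      have : 0 < 10 / κ := by positivity
      linarith
    have h3 : v * L * j ^ 2 / (4 * n) ≤ κ * L * j := by
      rw [div_le_iff₀ (by positivity)]
      have h4 : v * j ≤ 4 * κ * n := by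
        refine hvj.trans ?_
        have : 4 * κ * Real.exp (-(10 / κ + 1)) ≤ 4 * κ * 1 :=
          mul_le_mul_of_nonneg_left hexp1 (by positivity)
        nlinarith
      have h5 : L * j * (v * j) ≤ L * j * (4 * κ * n) :=
        mul_le_mul_of_nonneg_left h4 (by positivity)
      nlinarith
    rw [Ex_ind]
    have h6 := tail_hits h0 h1 (box X Z) (L := κ * L * j) (v := v * L * j ^ 2 / (4 * n))
      (by positivity) h2 hv0 h3
    refine (FL.Pr_mono h0 h1 fun G hG => ?_).trans (h6.trans ?_)
    · exact le_of_lt hG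
    · rw [hq, ← Real.exp_nat_mul]
      refine Real.exp_le_exp.2 ?_
      have h7 : 10 / κ + 1 ≤ Real.log (κ * L * j / (v * L * j ^ 2 / (4 * n))) := by
        rw [Real.le_log_iff_exp_le (by positivity)]
        have h8 : κ * L * j / (v * L * j ^ 2 / (4 * n)) = 4 * κ * n / (v * j) := by
          field_simp
        rw [h8, le_div_iff₀ (by positivity)]
        calc Real.exp (10 / κ + 1) * (v * j)
            ≤ Real.exp (10 / κ + 1) * (4 * κ * Real.exp (-(10 / κ + 1)) * n) :=
              mul_le_mul_of_nonneg_left hvj (Real.exp_pos _).le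
          _ = 4 * κ * n * (Real.exp (10 / κ + 1) * Real.exp (-(10 / κ + 1))) := by ring
          _ = 4 * κ * n := by rw [← Real.exp_add, add_neg_cancel, Real.exp_zero, mul_one]
      have h9 : κ * L * j * (10 / κ) ≤
          κ * L * j * (Real.log (κ * L * j / (v * L * j ^ 2 / (4 * n))) - 1) :=
        mul_le_mul_of_nonneg_left (by linarith) (by positivity)
      have h10 : κ * L * j * (10 / κ) = j * (10 * L) := by field_simp
      push_cast
      rw [← hjdef]
      linarith
  -- the union bound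
  have hsub : ∀ G : Gr n, ind (¬ SmallG G κ d L) ≤
      ∑ e ∈ (Finset.univ : Finset (Finset (Fin n) × Finset (Fin n))).filter
        (fun e => 0 < e.1.card + e.2.card ∧ (e.1.card + e.2.card : ℝ) ≤ d * n),
        ind (κ * L * (e.1.card + e.2.card) < ((G ∩ box e.1 e.2).card : ℝ)) := by
    intro G
    refine le_trans (ind_mono ?_) (ind_exists_le _ _)
    intro h
    unfold SmallG at h
    push Not at h
    obtain ⟨X, Z, h2, h3⟩ := h
    refine ⟨(X, Z), ?_, h3⟩
    rw [Finset.mem_filter]
    refine ⟨Finset.mem_univ _, ?_, h2⟩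
    by_contra h4
    have h5 : X.card = 0 := by simp only at h4; omega
    have h6 : box X Z = ∅ := by
      rw [Finset.card_eq_zero] at h5
      rw [box, h5, Finset.empty_product]
    rw [h6, Finset.inter_empty, Finset.card_empty, Nat.cast_zero] at h3
    have : 0 ≤ κ * L * (X.card + Z.card) := by positivity
    linarith
  calc Ex p (fun G : Gr n => ind (¬ SmallG G κ d L))
      ≤ Ex p (fun G : Gr n =>
        ∑ e ∈ (Finset.univ : Finset (Finset (Fin n) × Finset (Fin n))).filter
        (fun e => 0 < e.1.card + e.2.card ∧ (e.1.card + e.2.card : ℝ) ≤ d * n),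
        ind (κ * L * (e.1.card + e.2.card) < ((G ∩ box e.1 e.2).card : ℝ))) :=
          Ex_mono h0 h1 hsub
    _ = ∑ e ∈ (Finset.univ : Finset (Finset (Fin n) × Finset (Fin n))).filter
        (fun e => 0 < e.1.card + e.2.card ∧ (e.1.card + e.2.card : ℝ) ≤ d * n),
        Ex p (fun G : Gr n =>
          ind (κ * L * (e.1.card + e.2.card) < ((G ∩ box e.1 e.2).card : ℝ))) :=
          Ex_sum p _ _
    _ ≤ ∑ e ∈ (Finset.univ : Finset (Finset (Fin n) × Finset (Fin n))).filter
        (fun e => 0 < e.1.card + e.2.card ∧ (e.1.card + e.2.card : ℝ) ≤ d * n),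
          q ^ (e.1.card + e.2.card) := by
        refine Finset.sum_le_sum fun e he => ?_
        rw [Finset.mem_filter] at he
        exact key e he.2.1 he.2.2
    _ ≤ ∑ e ∈ (Finset.univ : Finset (Finset (Fin n) × Finset (Fin n))).filter
        (fun e => 0 < e.1.card + e.2.card), q ^ (e.1.card + e.2.card) := by
        refine Finset.sum_le_sum_of_subset_of_nonneg ?_ fun e _ _ => pow_nonneg hq0 _
        intro e he
        rw [Finset.mem_filter] at he ⊢
        exact ⟨he.1, he.2.1⟩
    _ ≤ 4 * n * q := by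
        refine h9_sum_pairs hq0 ?_
        rw [hqn, mul_one_div, div_le_one (by positivity)]
        have h5 : (1 : ℝ) ≤ (n : ℝ) ^ 8 := one_le_pow₀ (by linarith)
        have h6 : (n : ℝ) ^ 10 = n ^ 8 * n ^ 2 := by ring
        rw [h6]
        nlinarith
    _ ≤ (n : ℝ) ^ (-(2 : ℝ)) := by
        have h5 : (n : ℝ) ^ (-(2 : ℝ)) = 1 / (n : ℝ) ^ 2 := by
          rw [Real.rpow_neg hn0.le, one_div]
          norm_cast
        rw [h5, hqn, mul_one_div, div_le_div_iff₀ (by positivity) (by positivity)]
        have h6 : (1 : ℝ) ≤ (n : ℝ) ^ 6 := one_le_pow₀ (by linarith)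
        have h7 : 4 * (n : ℝ) * n ^ 2 ≤ n ^ 4 := by nlinarith [pow_pos hn0 3]
        have h8 : (n : ℝ) ^ 10 = n ^ 4 * n ^ 6 := by ring
        rw [h8]
        nlinarith [pow_pos hn0 4]

end Pool.Agent.Helper40.LS
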