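import Pool.Agent.Helper40.LS.Basic

/-! Project LS, module Q15: adaptive union bound. -/

set_option autoImplicit false
open Classical Filter Topology

namespace Pool.Agent.Helper40.LS

section

variable {X S : Type} [Fintype X] {n : ℕ}

/-- one coordinate is integrated out -/
theorem h9_fubini (μ : Fin n → X → ℝ) (t : Fin n) (g : (Fin n → X) → X → ℝ)
    (hg : ∀ x y z, g (Function.update x t z) y = g x y) :
    (∑ x : Fin n → X, (∏ u, μ u (x u)) * g x (x t)) * ∑ y, μ t y =
      ∑ x : Fin n → X, (∏ u, μ u (x u)) * ∑ y, μ t y * g x y := by
  have hw : ∀ (x : Fin n → X) (z : X), μ t (x t) * ∏ u, μ u (Function.update x t z u) =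
      μ t z * ∏ u, μ u (x u) := by
    intro x z
    rw [← Finset.mul_prod_erase Finset.univ (fun u => μ u (x u)) (Finset.mem_univ t),
      ← Finset.mul_prod_erase Finset.univ (fun u => μ u (Function.update x t z u))
        (Finset.mem_univ t)]
    have h1 : ∏ u ∈ Finset.univ.erase t, μ u (Function.update x t z u) =
        ∏ u ∈ Finset.univ.erase t, μ u (x u) := by
      refine Finset.prod_congr rfl fun u hu => ?_
      rw [Function.update_of_ne (Finset.ne_of_mem_erase hu)]
    rw [h1, Function.update_self]
    ring
  have hL : (∑ x : Fin n → X, (∏ u, μ u (x u)) * g x (x t)) * ∑ y, μ t y =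
      ∑ e : (Fin n → X) × X, (∏ u, μ u (e.1 u)) * g e.1 (e.1 t) * μ t e.2 := by
    rw [Finset.sum_mul, Fintype.sum_prod_type]
    refine Finset.sum_congr rfl fun x _ => ?_
    rw [Finset.mul_sum]
  have hR : ∑ x : Fin n → X, (∏ u, μ u (x u)) * ∑ y, μ t y * g x y =
      ∑ e : (Fin n → X) × X, (∏ u, μ u (e.1 u)) * (μ t e.2 * g e.1 e.2) := by
    rw [Fintype.sum_prod_type]
    refine Finset.sum_congr rfl fun x _ => ?_
    rw [Finset.mul_sum]
  rw [hL, hR]
  refine Finset.sum_nbij' (fun e => (Function.update e.1 t e.2, e.1 t))
    (fun e => (Function.update e.1 t e.2, e.1 t)) (fun _ _ => Finset.mem_univ _)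
    (fun _ _ => Finset.mem_univ _) ?_ ?_ ?_
  · rintro ⟨x, z⟩ _
    simp
  · rintro ⟨x, z⟩ _
    simp
  · rintro ⟨x, z⟩ _
    simp only
    rw [hg]
    have := hw x z
    calc (∏ u, μ u (x u)) * g x (x t) * μ t z
        = (μ t z * ∏ u, μ u (x u)) * g x (x t) := by ring
      _ = (μ t (x t) * ∏ u, μ u (Function.update x t z u)) * g x (x t) := by rw [this]
      _ = _ := by ring

omit [Fintype X] in
theorem h9_run_update (step : Fin n → S → X → Option S) (s0 : S) (x : Fin n → X) (t : Fin n)
    (z : X) : ∀ j : ℕ, j ≤ (t : ℕ) →
      run step s0 (Function.update x t z) j = run step s0 x j := by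
  intro j
  induction j with
  | zero => intro _; rfl
  | succ j ih =>
    intro hj
    have hjn : j < n := by omega
    unfold run
    rw [dif_pos hjn, dif_pos hjn, ih (by omega)]
    have : (⟨j, hjn⟩ : Fin n) ≠ t := by
      intro h
      have := congrArg Fin.val h
      simp only at this
      omega
    rw [Function.update_of_ne this]

omit [Fintype X] in
theorem h9_run_succ (step : Fin n → S → X → Option S) (s0 : S) (x : Fin n → X) (t : Fin n) :
    run step s0 x ((t : ℕ) + 1) = (run step s0 x t).bind fun s => step t s (x t) := by
  conv_lhs => unfold run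
  rw [dif_pos t.2]

/-- the potential has been large before time `j` -/
def h9_ex (step : Fin n → S → X → Option S) (F : ℕ → S → ℝ) (K : ℝ) (s0 : S) (j : ℕ)
    (x : Fin n → X) : Prop := ∃ i ≤ j, ∃ s, run step s0 x i = some s ∧ K ≤ F i s

omit [Fintype X] in
theorem h9_ex_update (step : Fin n → S → X → Option S) (F : ℕ → S → ℝ) (K : ℝ) (s0 : S)
    (x : Fin n → X) (t : Fin n) (z : X) :
    h9_ex step F K s0 t (Function.update x t z) ↔ h9_ex step F K s0 t x := by
  unfold h9_ex
  refine exists_congr fun i => ?_
  refine and_congr_right fun hi => ?_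
  rw [h9_run_update step s0 x t z i hi]

/-- the stopped potential -/
noncomputable def h9_V (Good : X → Prop) (step : Fin n → S → X → Option S) (F : ℕ → S → ℝ) (K : ℝ)
    (s0 : S) (j : ℕ) (x : Fin n → X) : ℝ :=
  if h9_ex step F K s0 j x then 1
  else (run step s0 x j).elim (ind (∀ t, Good (x t))) (fun s => F j s / K)

/-- the contribution of the next step -/
noncomputable def h9_g (Good : X → Prop) (step : Fin n → S → X → Option S) (F : ℕ → S → ℝ) (K : ℝ)
    (s0 : S) (t : Fin n) (x : Fin n → X) (y : X) : ℝ :=
  if h9_ex step F K s0 t x then 0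
  else (run step s0 x t).elim 0 (fun s => ind (step t s y = none ∧ Good y) +
    (step t s y).elim 0 (F ((t : ℕ) + 1)) / K)

/-- LS-Q15: adaptive union bound -/
theorem adaptive {X S : Type} [Fintype X] {n k : ℕ} (hk : k ≤ n) (μ : Fin n → X → ℝ)
    (hμ : ∀ t x, 0 ≤ μ t x) (Good : X → Prop) (step : Fin n → S → X → Option S)
    (I : ℕ → S → Prop) (F : ℕ → S → ℝ) (K β : ℝ) (hK : 0 < K) (hβ : 0 ≤ β) (s0 : S)
    (h0 : I 0 s0) (hF : ∀ t s, 0 ≤ F t s)
    (hinv : ∀ t : Fin n, (t : ℕ) < k → ∀ s x s', I t s → F t s < K → step t s x = some s' →
      I ((t : ℕ) + 1) s')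
    (hfail : ∀ t : Fin n, (t : ℕ) < k → ∀ s, I t s → F t s < K →
      ∑ x, μ t x * ind (step t s x = none ∧ Good x) ≤ β * ∑ x, μ t x)
    (hpot : ∀ t : Fin n, (t : ℕ) < k → ∀ s, I t s → F t s < K →
      ∑ x, μ t x * ((step t s x).elim 0 (F ((t : ℕ) + 1))) ≤ F t s * ∑ x, μ t x) :
    ∑ x : Fin n → X, (∏ t, μ t (x t)) * ind ((∀ t, Good (x t)) ∧ run step s0 x k = none) ≤
      (k * β + F 0 s0 / K) * ∏ t, ∑ x, μ t x := by
  have hw : ∀ x : Fin n → X, 0 ≤ ∏ t, μ t (x t) := fun x => Finset.prod_nonneg fun t _ => hμ t _
  have hm : ∀ t, 0 ≤ ∑ x, μ t x := fun t => Finset.sum_nonneg fun x _ => hμ t x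
  -- the case of zero mass
  by_cases hzero : ∃ t, ∑ x, μ t x = 0
  · obtain ⟨t, ht⟩ := hzero
    have h1 : ∀ x, μ t x = 0 := fun x =>
      (Finset.sum_eq_zero_iff_of_nonneg fun x _ => hμ t x).1 ht x (Finset.mem_univ x)
    have h2 : ∏ t, ∑ x, μ t x = 0 := Finset.prod_eq_zero (Finset.mem_univ t) ht
    rw [h2, mul_zero]
    refine le_of_eq (Finset.sum_eq_zero fun x _ => ?_)
    rw [Finset.prod_eq_zero (Finset.mem_univ t) (h1 _), zero_mul]
  have hmpos : ∀ t, 0 < ∑ x, μ t x := fun t =>
    lt_of_le_of_ne (hm t) fun h => hzero ⟨t, h.symm⟩
  have hPr : ∑ x : Fin n → X, ∏ t, μ t (x t) = ∏ t, ∑ x, μ t x := sum_prod_rows μ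
  have hPr0 : 0 ≤ ∏ t, ∑ x, μ t x := Finset.prod_nonneg fun t _ => hm t
  -- the invariant
  have hI : ∀ j : ℕ, j ≤ k → ∀ (x : Fin n → X), ¬ h9_ex step F K s0 j x → ∀ s,
      run step s0 x j = some s → I j s ∧ F j s < K := by
    intro j
    induction j with
    | zero =>
      intro _ x hx s hs
      have h1 : s0 = s := by
        unfold run at hs
        exact Option.some.inj hs
      subst h1
      refine ⟨h0, ?_⟩
      by_contra hcon
      exact hx ⟨0, le_rfl, s0, rfl, not_lt.1 hcon⟩
    | succ j ih =>
      intro hj x hx s hs
      have hjn : j < n := by omega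
      have hx' : ¬ h9_ex step F K s0 j x := by
        rintro ⟨i, hi, s', h1, h2⟩
        exact hx ⟨i, by omega, s', h1, h2⟩
      have h3 := h9_run_succ step s0 x ⟨j, hjn⟩
      simp only at h3
      rw [h3] at hs
      obtain ⟨s', hs', hstep⟩ := Option.bind_eq_some_iff.1 hs
      obtain ⟨h4, h5⟩ := ih (by omega) x hx' s' hs'
      refine ⟨hinv ⟨j, hjn⟩ (by simpa using hj) s' _ s h4 h5 hstep, ?_⟩
      by_contra hcon
      refine hx ⟨j + 1, le_rfl, s, ?_, not_lt.1 hcon⟩
      rw [h3]
      exact hs
  have hV0 : ∀ j (x : Fin n → X), 0 ≤ h9_V Good step F K s0 j x := by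
    intro j x
    unfold h9_V
    split_ifs
    · exact zero_le_one
    · cases run step s0 x j with
      | none => exact ind_nonneg _
      | some s => exact div_nonneg (hF _ _) hK.le
  -- one step
  have hstep : ∀ j : ℕ, j < k → ∑ x : Fin n → X, (∏ t, μ t (x t)) * h9_V Good step F K s0 (j + 1) x ≤
      ∑ x : Fin n → X, (∏ t, μ t (x t)) * h9_V Good step F K s0 j x +
        β * ∏ t, ∑ x, μ t x := by
    intro j hj
    have hjn : j < n := by omega
    set t : Fin n := ⟨j, hjn⟩ with ht
    have htj : (t : ℕ) = j := rfl
    -- the part of `V` where nothing happens any more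
    set W : (Fin n → X) → ℝ := fun x =>
      if h9_ex step F K s0 j x ∨ run step s0 x j = none then h9_V Good step F K s0 j x else 0
      with hW
    have hpt : ∀ x : Fin n → X, h9_V Good step F K s0 (j + 1) x ≤
        W x + h9_g Good step F K s0 t x (x t) := by
      intro x
      have h3 := h9_run_succ step s0 x t
      rw [htj] at h3
      by_cases hex : h9_ex step F K s0 j x
      · have h4 : h9_ex step F K s0 (j + 1) x := by
          obtain ⟨i, hi, s', h1, h2⟩ := hex
          exact ⟨i, by omega, s', h1, h2⟩
        have h5 : h9_g Good step F K s0 t x (x t) = 0 := by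
          unfold h9_g
          rw [if_pos hex]
        rw [h5, hW]
        simp only
        rw [if_pos (Or.inl hex)]
        unfold h9_V
        rw [if_pos h4, if_pos hex, add_zero]
      · cases hr : run step s0 x j with
        | none =>
          have h4 : run step s0 x (j + 1) = none := by rw [h3, hr]; rfl
          have h5 : ¬ h9_ex step F K s0 (j + 1) x := by
            rintro ⟨i, hi, s', h1, h2⟩
            rcases Nat.lt_or_ge i (j + 1) with h6 | h6
            · exact hex ⟨i, by omega, s', h1, h2⟩
            · have h7 : i = j + 1 := by omega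
              rw [h7, h4] at h1
              exact absurd h1 (by simp)
          have h6 : h9_g Good step F K s0 t x (x t) = 0 := by
            unfold h9_g
            rw [if_neg hex, htj, hr]
            rfl
          rw [h6, hW]
          simp only
          rw [if_pos (Or.inr hr)]
          unfold h9_V
          rw [if_neg h5, if_neg hex, h4, hr, add_zero]
          exact le_rfl
        | some s =>
          have hg : h9_g Good step F K s0 t x (x t) = ind (step t s (x t) = none ∧ Good (x t)) +
              (step t s (x t)).elim 0 (F ((t : ℕ) + 1)) / K := by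
            unfold h9_g
            rw [if_neg hex, htj, hr]
            rfl
          have hWx : W x = 0 := by
            rw [hW]
            simp only
            rw [if_neg]
            rintro (h4 | h4)
            · exact hex h4
            · rw [hr] at h4
              exact absurd h4 (by simp)
          rw [hg, hWx, zero_add]
          have h4 : run step s0 x (j + 1) = step t s (x t) := by rw [h3, hr]; rfl
          cases hs : step t s (x t) with
          | none =>
            have h5 : ¬ h9_ex step F K s0 (j + 1) x := by
              rintro ⟨i, hi, s', h1, h2⟩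
              rcases Nat.lt_or_ge i (j + 1) with h6 | h6
              · exact hex ⟨i, by omega, s', h1, h2⟩
              · have h7 : i = j + 1 := by omega
                rw [h7, h4, hs] at h1
                exact absurd h1 (by simp)
            unfold h9_V
            rw [if_neg h5, h4, hs]
            simp only [Option.elim_none, zero_div, add_zero, true_and]
            exact ind_mono fun h => h t
          | some s' =>
            have h5 : 0 ≤ F (j + 1) s' / K := div_nonneg (hF _ _) hK.le
            unfold h9_V
            simp only [Option.elim_some, htj]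
            rw [h4, hs]
            simp only [Option.elim_some]
            have h6 := ind_nonneg (False ∧ Good (x t))
            split_ifs with hex'
            · obtain ⟨i, hi, s'', h1, h2⟩ := hex'
              have h7 : i = j + 1 := by
                by_contra hne
                exact hex ⟨i, by omega, s'', h1, h2⟩
              rw [h7, h4, hs] at h1
              have h8 : s'' = s' := (Option.some.inj h1).symm
              rw [h7, h8] at h2
              have h9 : 1 ≤ F (j + 1) s' / K := by
                rw [le_div_iff₀ hK, one_mul]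
                exact h2
              linarith
            · linarith
    -- integrate
    have hgu : ∀ x y z, h9_g Good step F K s0 t (Function.update x t z) y =
        h9_g Good step F K s0 t x y := by
      intro x y z
      unfold h9_g
      rw [h9_run_update step s0 x t z t le_rfl]
      simp only [h9_ex_update]
    have hfub := h9_fubini μ t (h9_g Good step F K s0 t) hgu
    have hin : ∀ x : Fin n → X, ∑ y, μ t y * h9_g Good step F K s0 t x y ≤
        (β + (h9_V Good step F K s0 j x - W x)) * ∑ y, μ t y := by
      intro x
      by_cases hex : h9_ex step F K s0 j x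
      · have h5 : ∀ y, h9_g Good step F K s0 t x y = 0 := by
          intro y
          unfold h9_g
          rw [if_pos hex]
        have h6 : W x = h9_V Good step F K s0 j x := by
          rw [hW]
          simp only
          rw [if_pos (Or.inl hex)]
        simp only [h5, mul_zero, Finset.sum_const_zero]
        rw [h6, sub_self, add_zero]
        exact mul_nonneg hβ (hm t)
      · cases hr : run step s0 x j with
        | none =>
          have h5 : ∀ y, h9_g Good step F K s0 t x y = 0 := by
            intro y
            unfold h9_g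
            rw [if_neg hex, htj, hr]
            rfl
          have h6 : W x = h9_V Good step F K s0 j x := by
            rw [hW]
            simp only
            rw [if_pos (Or.inr hr)]
          simp only [h5, mul_zero, Finset.sum_const_zero]
          rw [h6, sub_self, add_zero]
          exact mul_nonneg hβ (hm t)
        | some s =>
          obtain ⟨hIs, hFs⟩ := hI j hj.le x hex s hr
          have h5 : ∀ y, μ t y * h9_g Good step F K s0 t x y =
              μ t y * ind (step t s y = none ∧ Good y) +
                μ t y * ((step t s y).elim 0 (F ((t : ℕ) + 1))) / K := by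
            intro y
            unfold h9_g
            rw [if_neg hex, htj, hr]
            simp only [Option.elim_some]
            ring
          have hWx : W x = 0 := by
            rw [hW]
            simp only
            rw [if_neg]
            rintro (h4 | h4)
            · exact hex h4
            · rw [hr] at h4
              exact absurd h4 (by simp)
          have hVx : h9_V Good step F K s0 j x = F j s / K := by
            unfold h9_V
            rw [if_neg hex, hr]
            rfl
          rw [Finset.sum_congr rfl fun y _ => h5 y, Finset.sum_add_distrib, ← Finset.sum_div,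
            hWx, hVx, sub_zero, add_mul]
          refine add_le_add (hfail t hj s hIs hFs) ?_
          rw [div_mul_eq_mul_div]
          exact (div_le_div_iff_of_pos_right hK).2 (hpot t hj s hIs hFs)
    have hsum : (∑ x : Fin n → X, (∏ u, μ u (x u)) * h9_g Good step F K s0 t x (x t)) ≤
        ∑ x : Fin n → X, (∏ u, μ u (x u)) * (β + (h9_V Good step F K s0 j x - W x)) := by
      have h5 : (∑ x : Fin n → X, (∏ u, μ u (x u)) * h9_g Good step F K s0 t x (x t)) *
          ∑ y, μ t y ≤ (∑ x : Fin n → X, (∏ u, μ u (x u)) *
            (β + (h9_V Good step F K s0 j x - W x))) * ∑ y, μ t y := by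
        rw [hfub, Finset.sum_mul]
        refine Finset.sum_le_sum fun x _ => ?_
        rw [mul_assoc]
        exact mul_le_mul_of_nonneg_left (hin x) (hw x)
      exact le_of_mul_le_mul_right h5 (hmpos t)
    calc ∑ x : Fin n → X, (∏ t, μ t (x t)) * h9_V Good step F K s0 (j + 1) x
        ≤ ∑ x : Fin n → X, (∏ t, μ t (x t)) * (W x + h9_g Good step F K s0 t x (x t)) :=
          Finset.sum_le_sum fun x _ => mul_le_mul_of_nonneg_left (hpt x) (hw x)
      _ = ∑ x : Fin n → X, (∏ t, μ t (x t)) * W x +
          ∑ x : Fin n → X, (∏ t, μ t (x t)) * h9_g Good step F K s0 t x (x t) := by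
          rw [← Finset.sum_add_distrib]
          exact Finset.sum_congr rfl fun x _ => by ring
      _ ≤ ∑ x : Fin n → X, (∏ t, μ t (x t)) * W x +
          ∑ x : Fin n → X, (∏ u, μ u (x u)) * (β + (h9_V Good step F K s0 j x - W x)) :=
          add_le_add le_rfl hsum
      _ = ∑ x : Fin n → X, (∏ t, μ t (x t)) * h9_V Good step F K s0 j x +
          β * ∑ x : Fin n → X, ∏ t, μ t (x t) := by
          rw [Finset.mul_sum, ← Finset.sum_add_distrib, ← Finset.sum_add_distrib]
          exact Finset.sum_congr rfl fun x _ => by ring
      _ = _ := by rw [hPr]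
  -- induction
  have hind : ∀ j : ℕ, j ≤ k → ∑ x : Fin n → X, (∏ t, μ t (x t)) * h9_V Good step F K s0 j x ≤
      (j * β + F 0 s0 / K) * ∏ t, ∑ x, μ t x := by
    intro j
    induction j with
    | zero =>
      intro _
      have h1 : ∀ x : Fin n → X, h9_V Good step F K s0 0 x ≤ F 0 s0 / K := by
        intro x
        unfold h9_V
        split_ifs with hex
        · obtain ⟨i, hi, s, h1, h2⟩ := hex
          have h3 : i = 0 := by omega
          rw [h3] at h1 h2
          have h4 : s0 = s := by
            unfold run at h1
            exact Option.some.inj h1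
          rw [← h4] at h2
          rw [le_div_iff₀ hK, one_mul]
          exact h2
        · exact le_rfl
      rw [Nat.cast_zero, zero_mul, zero_add, ← hPr, Finset.mul_sum]
      refine Finset.sum_le_sum fun x _ => ?_
      rw [mul_comm (F 0 s0 / K)]
      exact mul_le_mul_of_nonneg_left (h1 x) (hw x)
    | succ j ih =>
      intro hj
      have h1 := hstep j (by omega)
      have h2 := ih (by omega)
      push_cast
      calc _ ≤ _ := h1
        _ ≤ (j * β + F 0 s0 / K) * ∏ t, ∑ x, μ t x + β * ∏ t, ∑ x, μ t x := by linarith
        _ = _ := by ring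
  refine le_trans (Finset.sum_le_sum fun x _ => ?_) (hind k le_rfl)
  refine mul_le_mul_of_nonneg_left ?_ (hw x)
  by_cases hex : h9_ex step F K s0 k x
  · unfold h9_V
    rw [if_pos hex]
    exact ind_le_one _
  · cases hr : run step s0 x k with
    | none =>
      unfold h9_V
      rw [if_neg hex, hr]
      exact ind_mono fun h => h.1
    | some s =>
      rw [ind_false (by simp)]
      exact hV0 k x

end

end Pool.Agent.Helper40.LS
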